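import Pool.Agent.R915.H2
import Pool.Agent.W547.LD.Field

/-!
# Simple abelian varieties with complex multiplication are of CM type
-/

set_option autoImplicit false
set_option linter.unusedSectionVars false

namespace Pool.Agent.N522.HC

open Module Pool.Agent.Y90 NumberField Pool.Agent.R915
open Pool.Agent.H204R3.CM (IsCMType)
open Pool.Agent.W547.KB (CMPair CMAV)

noncomputable section

section ext

variable (Y : AV)

/-- Rational linear maps extend to real linear maps of the tangent space. -/
theorem exists_ext {V : Type} [AddCommGroup V] [Module ℝ V] (f : Y.H →+ V)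
    (hf : ∀ (q : ℚ) v, f (q • v) = (q : ℝ) • f v) :
    ∃ F : Y.T →ₗ[ℝ] V, ∀ v, F (Y.per v) = f v := by
  classical
  let b := finBasis ℚ Y.H
  obtain ⟨β, hβ⟩ := exists_realBasis Y b
  refine ⟨β.constr ℝ fun k => f (b k), fun v => ?_⟩
  conv_lhs => rw [← b.sum_repr v]
  conv_rhs => rw [← b.sum_repr v]
  rw [map_sum, map_sum, map_sum]
  refine Finset.sum_congr rfl fun k _ => ?_
  rw [per_smul, map_smul, hf, ← hβ, Basis.constr_basis]

/-- Real linear maps are determined by their values at the periods. -/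
theorem ext_unique {V : Type} [AddCommGroup V] [Module ℝ V] {F G : Y.T →ₗ[ℝ] V}
    (h : ∀ v, F (Y.per v) = G (Y.per v)) : F = G := by
  refine LinearMap.ext_on_range (v := Y.per) Y.span fun v => h v

end ext

/-- The number of the elements of a CM type. -/
theorem finrank_type (K : Type) [Field K] [NumberField K] (Φ : Set (K →+* ℂ)) (hΦ : IsCMType Φ) :
    finrank ℚ K = 2 * finrank ℂ (Φ → ℂ) := by
  classical
  rw [finrank_fintype_fun_eq_card, ← NumberField.Embeddings.card K ℂ]
  have h1 : Fintype.card (K →+* ℂ) = Fintype.card Φ + Fintype.card (Φᶜ : Set (K →+* ℂ)) :=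
    (Fintype.card_congr (Equiv.Set.sumCompl Φ).symm).trans Fintype.card_sum
  have h2 : Fintype.card (Φᶜ : Set (K →+* ℂ)) = Fintype.card Φ := by
    refine Fintype.card_congr ⟨fun φ => ⟨ComplexEmbedding.conjugate φ.1, ?_⟩,
      fun φ => ⟨ComplexEmbedding.conjugate φ.1, ?_⟩, fun φ => ?_, fun φ => ?_⟩
    · by_contra hcon
      exact φ.2 ((hΦ φ.1).2 hcon)
    · exact (hΦ φ.1).1 φ.2
    · exact Subtype.ext (star_star φ.1)
    · exact Subtype.ext (star_star φ.1)
  rw [h1, h2]
  ring

/-- The real span of the values of a CM type. -/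
theorem span_type (K : Type) [Field K] [NumberField K] (Φ : Set (K →+* ℂ)) (hΦ : IsCMType Φ) :
    Submodule.span ℝ (Set.range fun (x : K) (φ : Φ) => φ.1 x) = ⊤ := by
  classical
  rw [eq_top_iff]
  rintro u -
  have h1 : (fun _ : Unit => u) ∈ Submodule.span ℝ (Set.range
      (Pool.Agent.H204R3.CM.per (ι := Unit) (J := Unit) (E := fun _ => K) (fun _ => Φ) fun i => i)) := by
    rw [Pool.Agent.H204R3.CM.span_per (ι := Unit) (J := Unit) (E := fun _ => K) (fun i => i)
      (Φ := fun _ => Φ) fun _ => hΦ]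
    trivial
  let ev : (Unit → Φ → ℂ) →ₗ[ℝ] (Φ → ℂ) := LinearMap.proj ()
  have h2 := Submodule.mem_map_of_mem (f := ev) h1
  rw [Submodule.map_span] at h2
  refine Submodule.span_mono ?_ h2
  rintro _ ⟨_, ⟨w, rfl⟩, rfl⟩
  exact ⟨w (), rfl⟩

section main

variable (Y : AV) (K : Type) [Field K] [NumberField K] (e : Y.H ≃ₗ[ℚ] K)

/-- The action of the field. -/
def act (a : K) : Y.H →ₗ[ℚ] Y.H :=
  e.symm.toLinearMap.comp ((LinearMap.mulLeft ℚ a).comp e.toLinearMap)

theorem act_apply (a : K) (v : Y.H) : act Y K e a v = e.symm (a * e v) := rfl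

theorem e_act (a : K) (v : Y.H) : e (act Y K e a v) = a * e v := by
  rw [act_apply, e.apply_symm_apply]

variable (h1 : ∀ a, IsHom Y Y (act Y K e a)) (h2 : ∀ h, IsHom Y Y h → ∃ a, h = act Y K e a)

include h1 h2

theorem exists_type_aux : ∃ P : CMPair, IsOfType Y P := by
  classical
  have hT : FiniteDimensional ℝ Y.T := FiniteDimensional.complexToReal Y.T
  -- the linear forms
  have hl : ∀ φ : K →+* ℂ, ∃ F : Y.T →ₗ[ℝ] ℂ, ∀ v, F (Y.per v) = φ (e v) := by
    intro φ
    exact exists_ext Y ((φ : K →+ ℂ).comp (e : Y.H →+ K)) fun q v => by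
      change φ (e (q • v)) = (q : ℝ) • φ (e v)
      rw [map_smul, Algebra.smul_def, map_mul, eq_ratCast, map_ratCast, Complex.real_smul]
      push_cast
      rfl
  choose lam hlam using hl
  choose Ψ hΨ using h1
  have hΨ : ∀ a v, Ψ a (Y.per v) = Y.per (act Y K e a v) := hΨ
  have hlΨ : ∀ φ a t, lam φ (Ψ a t) = φ a * lam φ t := by
    intro φ a t
    have h3 : (lam φ).comp ((Ψ a).restrictScalars ℝ) = (φ a) • lam φ := by
      refine ext_unique Y fun v => ?_
      change lam φ (Ψ a (Y.per v)) = φ a * lam φ (Y.per v)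
      rw [hΨ, hlam, hlam, e_act, map_mul]
    exact congrArg (fun F => F t) h3
  set y0 : Y.H := e.symm 1 with hy0
  have hey0 : e y0 = 1 := e.apply_symm_apply 1
  let c : (K →+* ℂ) → ℂ := fun φ => lam φ (Complex.I • Y.per y0)
  have hc : ∀ φ t, lam φ (Complex.I • t) = c φ * lam φ t := by
    intro φ t
    have h3 : (lam φ).comp ((Complex.I • (LinearMap.id : Y.T →ₗ[ℂ] Y.T)).restrictScalars ℝ) =
        (c φ) • lam φ := by
      refine ext_unique Y fun v => ?_
      change lam φ (Complex.I • Y.per v) = c φ * lam φ (Y.per v)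
      have h4 : Y.per v = Ψ (e v) (Y.per y0) := by
        rw [hΨ, act_apply, hey0, mul_one, e.symm_apply_apply]
      rw [h4, ← map_smul, hlΨ, hlΨ, hlam φ y0, hey0, map_one, mul_one, mul_comm]
    exact congrArg (fun F => F t) h3
  have hcc : ∀ φ, c φ * c φ = -1 := by
    intro φ
    have h3 : c φ * c φ = lam φ (Complex.I • Complex.I • Y.per y0) := by
      rw [hc φ (Complex.I • Y.per y0)]
    rw [h3, smul_smul, Complex.I_mul_I, neg_one_smul, map_neg, hlam, hey0, map_one]
  have hcI : ∀ φ, c φ = Complex.I ∨ c φ = -Complex.I := by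
    intro φ
    have h3 : (c φ - Complex.I) * (c φ + Complex.I) = 0 := by
      have h4 := hcc φ
      have h5 := Complex.I_mul_I
      linear_combination h4 - h5
    rcases mul_eq_zero.1 h3 with h | h
    · exact Or.inl (sub_eq_zero.1 h)
    · exact Or.inr (eq_neg_of_add_eq_zero_left h)
  have hlc : ∀ φ t, lam (ComplexEmbedding.conjugate φ) t = starRingEnd ℂ (lam φ t) := by
    intro φ t
    have h3 : lam (ComplexEmbedding.conjugate φ) =
        (Complex.conjAe.toLinearMap : ℂ →ₗ[ℝ] ℂ).comp (lam φ) := by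
      refine ext_unique Y fun v => ?_
      rw [hlam, ComplexEmbedding.conjugate_coe_eq]
      change _ = starRingEnd ℂ (lam φ (Y.per v))
      rw [hlam]
    exact congrArg (fun F => F t) h3
  have hcconj : ∀ φ, c (ComplexEmbedding.conjugate φ) = starRingEnd ℂ (c φ) := fun φ => hlc φ _
  have hInI : (Complex.I : ℂ) ≠ -Complex.I := by
    intro h
    have h3 := congrArg Complex.im h
    rw [Complex.neg_im, Complex.I_im] at h3
    norm_num at h3
  set Φ : Set (K →+* ℂ) := {φ | c φ = Complex.I} with hΦdef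
  have hΦ : IsCMType Φ := by
    intro φ
    change c φ = Complex.I ↔ ¬ c (ComplexEmbedding.conjugate φ) = Complex.I
    rw [hcconj]
    rcases hcI φ with h | h
    · rw [h, Complex.conj_I]
      exact ⟨fun _ h' => hInI h'.symm, fun _ => rfl⟩
    · rw [h, map_neg, Complex.conj_I, neg_neg]
      exact ⟨fun h' => absurd h'.symm hInI, fun h' => absurd rfl h'⟩
  -- the isomorphism of the tangent space
  have hlin : ∀ φ ∈ Φ, ∀ (z : ℂ) t, lam φ (z • t) = z * lam φ t := by
    intro φ hφ z t
    have h3 : z • t = z.re • t + z.im • (Complex.I • t) := by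
      conv_lhs => rw [← Complex.re_add_im z, add_smul, mul_smul]
      rfl
    have h4 : c φ = Complex.I := hφ
    rw [h3, map_add, map_smul, map_smul, hc, h4, Complex.real_smul, Complex.real_smul]
    conv_rhs => rw [← Complex.re_add_im z]
    ring
  let Θ : Y.T →ₗ[ℂ] (Φ → ℂ) :=
    { toFun := fun t φ => lam φ.1 t
      map_add' := fun t t' => by
        funext φ
        exact map_add _ _ _
      map_smul' := fun z t => by
        funext φ
        exact hlin φ.1 φ.2 z t }
  have hΘ : ∀ t φ, Θ t φ = lam φ.1 t := fun t φ => rfl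
  have hsurj : Function.Surjective Θ := by
    have h3 : Submodule.span ℝ (Set.range fun (x : K) (φ : Φ) => φ.1 x) ≤
        LinearMap.range (Θ.restrictScalars ℝ) := by
      refine Submodule.span_le.2 ?_
      rintro _ ⟨x, rfl⟩
      refine ⟨Y.per (e.symm x), ?_⟩
      funext φ
      change lam φ.1 (Y.per (e.symm x)) = φ.1 x
      rw [hlam, e.apply_symm_apply]
    rw [span_type K Φ hΦ] at h3
    intro u
    obtain ⟨t, ht⟩ := h3 (Submodule.mem_top (x := u))
    exact ⟨t, ht⟩
  have hfin : finrank ℂ Y.T = finrank ℂ (Φ → ℂ) := by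
    have h3 := Y.rank
    have h4 := finrank_type K Φ hΦ
    have h5 := e.finrank_eq
    omega
  have hinj : Function.Injective Θ :=
    (LinearMap.injective_iff_surjective_of_finrank_eq_finrank hfin).2 hsurj
  -- the polarization
  obtain ⟨E, B, hBl, hBc, hBp, hBE⟩ := Y.pol
  obtain ⟨ω, hω, -, hω0⟩ := pol_form Y (E := E) ⟨B, hBl, hBc, hBp, hBE⟩
  have hadd : ∀ u v w, B (u + v) w = B u w + B v w := fun u v w => (hBl w).map_add u v
  have hsmul : ∀ (z : ℂ) u w, B (z • u) w = z * B u w := fun z u w => (hBl w).map_smul z u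
  have hadd' : ∀ u v w, B w (u + v) = B w u + B w v := by
    intro u v w
    rw [hBc (u + v) w, hadd, map_add, ← hBc, ← hBc]
  have hsmul' : ∀ (z : ℂ) u w, B w (z • u) = starRingEnd ℂ z * B w u := by
    intro z u w
    rw [hBc (z • u) w, hsmul, map_mul, ← hBc]
  have hrs : ∀ (r : ℝ) u w, B (r • u) w = r * B u w := by
    intro r u w
    rw [show r • u = (r : ℂ) • u from rfl, hsmul]
  have hrs' : ∀ (r : ℝ) u w, B w (r • u) = r * B w u := by
    intro r u w
    rw [show r • u = (r : ℂ) • u from rfl, hsmul', Complex.conj_ofReal]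
  let Bf : Y.T →ₗ[ℝ] Y.T →ₗ[ℝ] ℝ := LinearMap.mk₂ ℝ (fun u v => (B u v).im)
    (fun u v w => by rw [hadd, Complex.add_im]) (fun r u v => by
      rw [hrs, Complex.im_ofReal_mul, smul_eq_mul])
    (fun u v w => by rw [hadd', Complex.add_im]) (fun r u v => by
      rw [hrs', Complex.im_ofReal_mul, smul_eq_mul])
  have hBf : ∀ u v, Bf u v = (B u v).im := fun u v => rfl
  have hBfI : ∀ u t, Bf u (Complex.I • t) = -Bf (Complex.I • u) t := by
    intro u t
    rw [hBf, hBf, hsmul, hsmul', Complex.conj_I, neg_mul, Complex.neg_im]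
  have hnd : ∀ x, (∀ u, Bf u x = 0) → x = 0 := by
    intro x hx
    by_contra hne
    have h3 := hx (Complex.I • x)
    rw [hBf, hsmul, Complex.I_mul_im] at h3
    exact absurd h3 (hBp x hne).ne'
  -- the adjoint
  have hadj : ∀ a, ∃ a', ∀ u u', Bf (Ψ a u) u' = Bf u (Ψ a' u') := by
    intro a
    have hωinj : Function.Injective ω.flip := by
      rw [injective_iff_map_eq_zero]
      intro u hu
      exact hω0 u fun v => congrArg (fun F => F v) hu
    let D : Y.H ≃ₗ[ℚ] Module.Dual ℚ Y.H :=
      LinearMap.linearEquivOfInjective ω.flip hωinj Subspace.dual_finrank_eq.symm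
    have hD : ∀ w v, D w v = ω v w := fun w v => rfl
    let h : Y.H →ₗ[ℚ] Y.H :=
      D.symm.toLinearMap.comp ((Module.Dual.transpose (R := ℚ) (act Y K e a)).comp ω.flip)
    have hh : ∀ v w, ω v (h w) = ω (act Y K e a v) w := by
      intro v w
      rw [← hD]
      change (D (D.symm _)) v = _
      rw [D.apply_symm_apply]
      rfl
    obtain ⟨F, hF⟩ := exists_ext Y ((Y.per).comp (h : Y.H →+ Y.H)) fun q v => by
      change Y.per (h (q • v)) = (q : ℝ) • Y.per (h v)
      rw [map_smul, per_smul]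
    have hF : ∀ v, F (Y.per v) = Y.per (h v) := hF
    have hper : ∀ v w, Bf (Y.per v) (Y.per w) = ((ω v w : ℚ) : ℝ) := by
      intro v w
      rw [hBf, hBE, hω]
    have key : ∀ u u', Bf (Ψ a u) u' = Bf u (F u') := by
      have h3 : Bf.comp ((Ψ a).restrictScalars ℝ) = Bf.compl₂ F := by
        refine ext_unique Y fun v => ?_
        refine ext_unique Y fun w => ?_
        change Bf (Ψ a (Y.per v)) (Y.per w) = Bf (Y.per v) (F (Y.per w))
        rw [hΨ, hF, hper, hper, hh]
      intro u u'
      exact congrArg (fun G => G u u') h3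
    have hFI : ∀ t, F (Complex.I • t) = Complex.I • F t := by
      intro t
      rw [← sub_eq_zero]
      refine hnd _ fun u => ?_
      rw [map_sub, ← key, hBfI, ← map_smul, key, hBfI, sub_self]
    let Fc : Y.T →ₗ[ℂ] Y.T :=
      { toFun := F
        map_add' := map_add F
        map_smul' := fun z t => by
          have h3 : ∀ t : Y.T, z • t = z.re • t + z.im • (Complex.I • t) := by
            intro t
            conv_lhs => rw [← Complex.re_add_im z, add_smul, mul_smul]
            rfl
          rw [h3, map_add, map_smul, map_smul, hFI, RingHom.id_apply, h3] }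
    obtain ⟨a', ha'⟩ := h2 h ⟨Fc, hF⟩
    refine ⟨a', fun u u' => ?_⟩
    have h4 : F = (Ψ a').restrictScalars ℝ := by
      refine ext_unique Y fun v => ?_
      change F (Y.per v) = Ψ a' (Y.per v)
      rw [hF, hΨ, ha']
    rw [key, h4]
    rfl
  have hadjB : ∀ a, ∃ a', ∀ u u', B (Ψ a u) u' = B u (Ψ a' u') := by
    intro a
    obtain ⟨a', ha'⟩ := hadj a
    refine ⟨a', fun u u' => ?_⟩
    have hre : ∀ x y, (B x y).re = Bf (Complex.I • x) y := by
      intro x y
      rw [hBf, hsmul, Complex.I_mul_im]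
    apply Complex.ext
    · rw [hre, hre, ← map_smul, ha']
    · exact ha' u u'
  have hconj : ∀ a, ∃ a', ∀ φ : K →+* ℂ, φ a' = starRingEnd ℂ (φ a) := by
    intro a
    obtain ⟨a', ha'⟩ := hadjB a
    have h3 : ∀ φ ∈ Φ, φ a' = starRingEnd ℂ (φ a) := by
      intro φ hφ
      obtain ⟨t, ht⟩ := hsurj (Pi.single ⟨φ, hφ⟩ 1)
      have ht0 : t ≠ 0 := by
        intro h0
        rw [h0, map_zero] at ht
        have h4 := congrFun ht ⟨φ, hφ⟩
        rw [Pi.zero_apply, Pi.single_eq_same] at h4
        exact zero_ne_one h4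
      have hΨt : ∀ b, Ψ b t = φ b • t := by
        intro b
        apply hinj
        funext ψ
        rw [hΘ, hlΨ, map_smul, Pi.smul_apply, smul_eq_mul, ← hΘ t ψ, ht]
        by_cases h4 : ψ = ⟨φ, hφ⟩
        · rw [h4]
        · rw [Pi.single_eq_of_ne h4, mul_zero, mul_zero]
      have h4 := ha' t t
      rw [hΨt, hΨt, hsmul, hsmul'] at h4
      have h5 : B t t ≠ 0 := by
        intro h0
        have h6 := hBp t ht0
        rw [h0, Complex.zero_re] at h6
        exact lt_irrefl _ h6
      have h6 := mul_right_cancel₀ h5 h4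
      rw [h6, Complex.conj_conj]
    refine ⟨a', fun φ => ?_⟩
    by_cases hφ : φ ∈ Φ
    · exact h3 φ hφ
    · have h4 : ComplexEmbedding.conjugate φ ∈ Φ := by
        by_contra hcon
        exact hφ ((hΦ φ).2 hcon)
      have h5 := h3 _ h4
      rw [ComplexEmbedding.conjugate_coe_eq, ComplexEmbedding.conjugate_coe_eq] at h5
      exact (starRingEnd ℂ).injective h5
  choose τ hτ using hconj
  obtain ⟨φ0⟩ : Nonempty (K →+* ℂ) := inferInstance
  have hττ : ∀ a, τ (τ a) = a := fun a => φ0.injective (by rw [hτ, hτ, Complex.conj_conj])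
  let τe : K ≃+* K :=
    { toFun := τ
      invFun := τ
      left_inv := hττ
      right_inv := hττ
      map_mul' := fun a b => φ0.injective (by rw [hτ, map_mul, map_mul, map_mul, hτ, hτ])
      map_add' := fun a b => φ0.injective (by rw [hτ, map_add, map_add, map_add, hτ, hτ]) }
  let σ : K ≃ₐ[ℚ] K := AlgEquiv.ofRingEquiv (f := τe) fun q => by
    rw [eq_ratCast, map_ratCast]
  have hσ : ∀ φ : K →+* ℂ, ComplexEmbedding.IsConj φ σ := by
    intro φ
    ext x
    rw [ComplexEmbedding.conjugate_coe_eq]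
    exact (hτ x φ).symm
  have htc : IsTotallyComplex K := by
    refine ⟨fun w => ?_⟩
    rw [← InfinitePlace.mk_embedding w, InfinitePlace.isComplex_mk_iff]
    intro hreal
    have h3 := hΦ w.embedding
    rw [ComplexEmbedding.isReal_iff.1 hreal] at h3
    tauto
  have hcm : IsCMField K := Pool.Agent.W547.LD.isCM_of_conj K hσ
  exact ⟨⟨K, Φ, hΦ⟩, e, LinearEquiv.ofBijective Θ ⟨hinj, hsurj⟩, fun v φ => hlam φ.1 v⟩

end main

/-- A simple abelian variety on which a field of degree `2 dim` acts. -/
theorem exists_type_of (Y : AV) (hs : IsSimple Y) (K : Type) [Field K] [NumberField K]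
    (ρ : K →+* Module.End ℚ Y.H) (hρ : ∀ a, IsHom Y Y (ρ a)) (hdim : finrank ℚ K = finrank ℚ Y.H) :
    ∃ P : CMPair, IsOfType Y P := by
  classical
  obtain ⟨y0, hy0⟩ := hs.1
  have hinj : ∀ h : Y.H →ₗ[ℚ] Y.H, IsHom Y Y h → h ≠ 0 → Function.Injective h := by
    intro h hh h0
    rcases hs.2 _ (isSub_ker hh) with h1 | h1
    · exact LinearMap.ker_eq_bot.1 h1
    · exact absurd (LinearMap.ker_eq_top.1 h1) h0
  let f0 : K →+ Y.H :=
    { toFun := fun a => ρ a y0
      map_zero' := by
        rw [map_zero]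
        rfl
      map_add' := fun a b => by
        rw [map_add]
        rfl }
  let f : K →ₗ[ℚ] Y.H :=
    { toFun := f0
      map_add' := fun a b => map_add f0 a b
      map_smul' := fun q a => map_rat_smul f0 q a }
  have hf : ∀ a, f a = ρ a y0 := fun a => rfl
  have hfinj : Function.Injective f := by
    rw [injective_iff_map_eq_zero]
    intro a ha
    by_contra hne
    have h1 : ρ a⁻¹ (ρ a y0) = y0 := by
      rw [← Module.End.mul_apply, ← map_mul, inv_mul_cancel₀ hne, map_one]
      rfl
    rw [← hf, ha, map_zero] at h1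
    exact hy0 h1.symm
  let e : Y.H ≃ₗ[ℚ] K := (LinearMap.linearEquivOfInjective f hfinj hdim).symm
  have he : ∀ a, e.symm a = ρ a y0 := fun a => rfl
  have hact : ∀ a, act Y K e a = ρ a := by
    intro a
    refine LinearMap.ext fun v => ?_
    rw [act_apply, he, map_mul, Module.End.mul_apply, ← he, e.symm_apply_apply]
  refine exists_type_aux Y K e (fun a => by rw [hact]; exact hρ a) fun h hh => ⟨e (h y0), ?_⟩
  rw [hact]
  have h1 : IsHom Y Y (h - ρ (e (h y0))) := by
    obtain ⟨Φ, hΦ⟩ := hh
    obtain ⟨Ψ, hΨ⟩ := hρ (e (h y0))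
    refine ⟨Φ - Ψ, fun v => ?_⟩
    rw [LinearMap.sub_apply, LinearMap.sub_apply, hΦ, hΨ, map_sub]
  by_contra hne
  have h2 := hinj _ h1 (sub_ne_zero.2 hne)
  refine hy0 (h2 ?_)
  rw [map_zero, LinearMap.sub_apply, ← he, e.symm_apply_apply, sub_self]

/-- **A simple abelian variety with complex multiplication is isogenous to an abelian variety of CM
type.** -/
theorem exists_type (Y : AV) (hs : IsSimple Y) (hc : HasCMult Y) : ∃ P : CMPair, IsOfType Y P := by
  classical
  obtain ⟨A, hcomm, hdim, hhom⟩ := hc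
  obtain ⟨y0, hy0⟩ := hs.1
  -- homomorphisms are injective
  have hinj : ∀ h : Y.H →ₗ[ℚ] Y.H, IsHom Y Y h → h ≠ 0 → Function.Injective h := by
    intro h hh h0
    rcases hs.2 _ (isSub_ker hh) with h1 | h1
    · exact LinearMap.ker_eq_bot.1 h1
    · exact absurd (LinearMap.ker_eq_top.1 h1) h0
  let rA : CommRing A := { (inferInstance : Ring A) with
    mul_comm := fun a b => Subtype.ext (hcomm a a.2 b b.2) }
  have hdom : IsDomain A := by
    have : Nontrivial A := ⟨⟨1, 0, fun h => hy0 (by
      have h1 := congrArg (fun a : A => (a : Module.End ℚ Y.H) y0) h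
      exact h1)⟩⟩
    have : NoZeroDivisors A := ⟨fun {a b} hab => by
      by_cases ha : a = 0
      · exact Or.inl ha
      · right
        have ha' : (a : Module.End ℚ Y.H) ≠ 0 := fun h => ha (Subtype.ext h)
        apply Subtype.ext
        refine LinearMap.ext fun v => ?_
        apply hinj a (hhom a a.2) ha'
        have h1 := congrArg (fun a : A => (a : Module.End ℚ Y.H) v) hab
        change (a : Module.End ℚ Y.H) ((b : Module.End ℚ Y.H) v) = 0 at h1
        rw [h1]
        exact (map_zero _).symm⟩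
    exact NoZeroDivisors.to_isDomain A
  have hfin : FiniteDimensional ℚ A := inferInstance
  let fA : Field A := fieldOfFiniteDimensional ℚ A
  have hch : CharZero A := algebraRat.charZero A
  have halg : (Subalgebra.algebra A : Algebra ℚ A) = DivisionRing.toRatAlgebra :=
    Subsingleton.elim _ _
  have hnf : NumberField A := by
    refine { to_charZero := hch, to_finiteDimensional := ?_ }
    rw [← halg]
    exact hfin
  refine exists_type_of Y hs A (A.val : A →+* Module.End ℚ Y.H) (fun a => hhom a a.2) ?_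
  rw [← hdim, ← halg]

end

end Pool.Agent.N522.HC
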