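import Pool.Agent.N522.HC.Pol
import Pool.Agent.R937.HZ.Four

/-!
# The Hodge conjecture for products of abelian varieties of dimension at most three and Hodge classes of
degree four
-/

set_option autoImplicit false
set_option linter.unusedSectionVars false

namespace Pool.Agent.N522.HC

open Matrix Module Pool.Agent.Y90 NumberField Pool.Agent.R915
open Pool.Agent.TH504.CB (isHodge_comp)
open Pool.Agent.H204R3.CM (IsCMType IsHodge)
open Pool.Agent.W547.KB (CMPair CMAV pairT per_pair inT inT')
open Pool.Agent.R937.HZ (CS Four hodge_small)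

noncomputable section

/-- An abelian variety of CM type as an abelian variety. -/
def av (X : CMAV) : AV := avC X (exists_pol X)

/-- The inclusion of the first homology. -/
def inH (X Y : CMAV) : X.H1 →ₗ[ℚ] (X.prod Y).H1 where
  toFun u := X.pair Y u 0
  map_add' u u' := by
    funext s
    cases s
    · rfl
    · exact (add_zero _).symm
  map_smul' a u := by
    funext s
    rcases s with i | i
    · rfl
    · exact (smul_zero (A := (Y.factor i).E) a).symm

/-- The inclusion of the second homology. -/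
def inH' (X Y : CMAV) : Y.H1 →ₗ[ℚ] (X.prod Y).H1 where
  toFun u := X.pair Y 0 u
  map_add' u u' := by
    funext s
    cases s
    · exact (add_zero _).symm
    · rfl
  map_smul' a u := by
    funext s
    rcases s with i | i
    · exact (smul_zero (A := (X.factor i).E) a).symm
    · rfl

theorem inH_hom (X Y : CMAV) : IsHom (av X) (av (X.prod Y)) (inH X Y) :=
  ⟨inT X Y, fun (v : X.H1) => by
    change pairT X Y (X.per v) 0 = (X.prod Y).per (X.pair Y v 0)
    rw [per_pair, map_zero]⟩

theorem inH'_hom (X Y : CMAV) : IsHom (av Y) (av (X.prod Y)) (inH' X Y) :=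
  ⟨inT' X Y, fun (v : Y.H1) => by
    change pairT X Y 0 (Y.per v) = (X.prod Y).per (X.pair Y 0 v)
    rw [per_pair, map_zero]⟩

theorem in_add (X Y : CMAV) (w : X.H1) (w' : Y.H1) : inH X Y w + inH' X Y w' = X.pair Y w w' := by
  funext s
  cases s
  · exact add_zero _
  · exact zero_add _

theorem in_bij (X Y : CMAV) :
    Function.Bijective fun w : X.H1 × Y.H1 => inH X Y w.1 + inH' X Y w.2 := by
  refine ⟨fun w w' h => ?_, fun v => ⟨(fun i => v (Sum.inl i), fun i => v (Sum.inr i)), ?_⟩⟩
  · have h1 : X.pair Y w.1 w.2 = X.pair Y w'.1 w'.2 := by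
      rw [← in_add, ← in_add]
      exact h
    exact Prod.ext (funext fun i => congrFun h1 (Sum.inl i)) (funext fun i => congrFun h1 (Sum.inr i))
  · let w : X.H1 := fun i => v (Sum.inl i)
    let w' : Y.H1 := fun i => v (Sum.inr i)
    change inH X Y w + inH' X Y w' = v
    rw [in_add]
    funext s
    cases s <;> rfl

/-- The restriction of a system to the abelian varieties of CM type. -/
def csOf (𝒜 : Sys) : CS where
  A X κ f := 𝒜.A (av X) κ f
  unit f := 𝒜.unit (X := av _) f
  divisor hκ f hf := 𝒜.divisor (X := av _) hκ f hf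
  zero X κ := 𝒜.zero (av X) κ
  add f g hf hg := 𝒜.add (X := av _) f g hf hg
  smul a f hf := 𝒜.smul (X := av _) a f hf
  reindex e f hf := 𝒜.reindex (X := av _) e f hf
  cup f g hf hg h hh := 𝒜.cup (X := av _) f g hf hg h hh
  pull h hh f hf := 𝒜.pull (X := av _) (Y := av _) h hh f hf
  push {X Y _ _} b f hf g hg := 𝒜.push (X := av X) (Y := av Y) (P := av (X.prod Y)) (inH X Y)
    (inH_hom X Y) (inH' X Y) (inH'_hom X Y) (in_bij X Y) b f hf g hg

/-- The Hodge classes of degree four on products of at most four abelian varieties of CM type of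
dimension at most three belong to the system. -/
def FourCM (𝒜 : Sys) : Prop :=
  ∀ (C : CMAV) (hp : ∃ E, IsPolarization C.per E), Fintype.card C.I ≤ 4 →
    (∀ i, finrank ℚ (C.factor i).E ≤ 6) →
    ∀ f : C.H1 [⋀^Fin 4]→ₗ[ℚ] ℚ, IsHodge C.per f → 𝒜.A (avC C hp) (Fin 4) f

theorem four_of {𝒜 : Sys} (h : FourCM 𝒜) : Four (csOf 𝒜) :=
  fun C hC hE f hf => h C (exists_pol C) hC hE f hf

/-- Hodge classes on products of simple abelian varieties with complex multiplication of dimension
at most three. -/
theorem prod_small {𝒜 : Sys} (h4 : FourCM 𝒜) {Q : Type} [Fintype Q] [DecidableEq Q]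
    {a : Q → ℕ} {Z' : ∀ q, Matrix (Fin (a q)) (Fin (a q)) ℂ}
    (h' : ∀ q, PM (Z' q)) (hs : ∀ q, IsSimple (AVZ (h' q)))
    (hc : ∀ q, HasCMult (AVZ (h' q))) (hd : ∀ q, finrank ℚ (AVZ (h' q)).H ≤ 6) :
    𝒜.AllHodge (AVQ h') := by
  choose P hP using fun q => exists_type _ (hs q) (hc q)
  choose e Ψ hΨ using hP
  intro κ _ f hf
  let X : CMAV := ⟨Q, P⟩
  -- the isomorphism of the homology
  let ε : (BQ a → ℚ) ≃ₗ[ℚ] X.H1 :=
    { toFun := fun w q => e q (cQ q w)
      invFun := fun x y => (e y.1).symm (x y.1) y.2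
      left_inv := fun w => by
        funext y
        change (e y.1).symm (e y.1 (cQ y.1 w)) y.2 = w y
        rw [LinearEquiv.symm_apply_apply]
        rfl
      right_inv := fun x => by
        funext q
        change e q (fun i => (e q).symm (x q) i) = x q
        exact (e q).apply_symm_apply (x q)
      map_add' := fun v w => by
        funext q
        exact map_add (e q) (cQ q v) (cQ q w)
      map_smul' := fun c v => by
        funext q
        exact map_smul (e q) c (cQ q v) }
  let Θ : (AVQ h').T ≃ₗ[ℂ] X.Tan := LinearEquiv.piCongrRight Ψ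
  have hΘ : ∀ v, Θ ((AVQ h').per v) = X.per (ε v) := by
    intro v
    funext q φ
    exact hΨ q (cQ q v) φ
  have hΘs : ∀ x, Θ.symm (X.per x) = (AVQ h').per (ε.symm x) := by
    intro x
    rw [LinearEquiv.symm_apply_eq, hΘ, ε.apply_symm_apply]
  have h1 : IsHodge X.per (f.compLinearMap ε.symm.toLinearMap) :=
    isHodge_comp ε.symm.toLinearMap Θ.symm.toLinearMap hΘs hf
  have h2 : (csOf 𝒜).A X κ (f.compLinearMap ε.symm.toLinearMap) :=
    hodge_small (four_of h4) X (fun q => (e q).finrank_eq ▸ hd q) _ h1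
  have h3 := 𝒜.pull (X := AVQ h') (Y := av X) ε.toLinearMap ⟨Θ.toLinearMap, hΘ⟩ _ h2
  have h4 : (f.compLinearMap ε.symm.toLinearMap).compLinearMap ε.toLinearMap = f := by
    ext v
    rw [AlternatingMap.compLinearMap_apply, AlternatingMap.compLinearMap_apply]
    congr 1
    funext k
    exact ε.symm_apply_apply (v k)
  rw [← h4]
  exact h3

/-- The projection to a factor. -/
def toFac (C : CMAV) (i : C.I) : C.H1 →ₗ[ℚ] (Pool.Agent.W547.KB.single (C.factor i)).H1 where
  toFun w := fun _ => w i
  map_add' _ _ := rfl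
  map_smul' _ _ := rfl

/-- The projection to a factor is a homomorphism. -/
theorem toFac_hom (C : CMAV) (hp : ∃ E, IsPolarization C.per E) (i : C.I) :
    IsHom (avC C hp) (av (Pool.Agent.W547.KB.single (C.factor i))) (toFac C i) :=
  ⟨{ toFun := fun u _ => u i
     map_add' := fun _ _ => rfl
     map_smul' := fun _ _ => rfl }, fun _ => rfl⟩

/-- The simple factors of a product of abelian varieties of CM type. -/
theorem factor_dim (C : CMAV) (hp : ∃ E, IsPolarization C.per E) {n : ℕ}
    (hC : ∀ i, finrank ℚ (C.factor i).E ≤ n) {Y : AV} (hY : IsFactor Y (avC C hp)) :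
    finrank ℚ Y.H ≤ n := by
  classical
  obtain ⟨hYs, i, hi, hinj⟩ := hY
  obtain ⟨k, hk⟩ : ∃ k, (toFac C k).comp i ≠ 0 := by
    by_contra hcon
    push Not at hcon
    obtain ⟨y, hy⟩ := hYs.1
    refine hy (hinj ?_)
    rw [map_zero]
    funext x
    exact congrFun (congrArg (fun φ => φ y) (hcon x)) ()
  have hhom := IsHom.comp' (toFac_hom C hp k) hi
  have h1 : Function.Injective ((toFac C k).comp i) := by
    rcases hYs.2 _ (isSub_ker hhom) with h1 | h1
    · exact LinearMap.ker_eq_bot.1 h1
    · exact absurd (LinearMap.ker_eq_top.1 h1) hk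
  have h2 := LinearMap.finrank_le_finrank_of_injective h1
  refine h2.trans ((le_of_eq ?_).trans (hC k))
  change finrank ℚ (Unit → (C.factor k).E) = _
  rw [finrank_pi_fintype, Finset.univ_unique, Finset.sum_singleton]

/-- The simple abelian varieties of dimension at most three, and those without complex multiplication
of the known types. -/
def Allowed (Y : AV) : Prop :=
  finrank ℚ Y.H ≤ 6 ∨ (¬ HasCMult Y ∧ (QuadMult Y ∨ RealMult Y ∨ FiveDim Y ∨ FullHodge Y))

/-- All Hodge classes. -/
theorem all_of_four {𝒜 : Sys} (h4 : FourCM 𝒜) (X : AV) (hX : ∀ Y, IsFactor Y X → Allowed Y) :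
    𝒜.AllHodge X := by
  refine main_cm 𝒜 X (fun a Z' h' i hi hinj hsim ha => ?_) fun Q _ _ a Z' h' hc =>
    prod_small h4 h' (fun q => (hc q).1) (fun q => (hc q).2.1) fun q => ?_
  · by_cases hcm : HasCMult (AVZ h')
    · exact Or.inr hcm
    refine Or.inl ⟨hcm, fun U hU => ?_⟩
    rcases hX (AVZ h') ⟨hsim, i, hi, hinj⟩ with k | ⟨-, k | k | k | k⟩
    · exact SmallDim.lc h' hsim ha ⟨k, fun h1 => absurd h1 hcm⟩ hU
    · exact k.lc h' hU
    · exact k.lc h' hsim ha hU
    · exact k.lc h' hsim ha hU
    · exact k.lc h' hsim ha hU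
  · obtain ⟨h3, h5, h6 | ⟨h6, -⟩⟩ := hc q
    · rcases hX _ h6 with k | k
      · exact k
      · exact absurd h5 k.1
    · rw [h6]
      norm_num

/-- **The Hodge conjecture for products of abelian varieties of dimension at most three is a question
on classes of degree four.** -/
theorem hodge_tfae (𝒜 : Sys) : List.TFAE [
    ∀ X : AV, (∀ Y, IsFactor Y X → Allowed Y) → 𝒜.AllHodge X,
    ∀ X : AV, (∀ Y, IsFactor Y X → finrank ℚ Y.H ≤ 6) → 𝒜.AllHodge X,
    FourCM 𝒜] := by
  tfae_have 1 → 2 := fun h X hX => h X fun Y hY => Or.inl (hX Y hY)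
  tfae_have 2 → 3 := fun h C hp _ hC f hf =>
    h (avC C hp) (fun Y hY => factor_dim C hp hC hY) (Fin 4) f hf
  tfae_have 3 → 1 := fun h X hX => all_of_four h X hX
  tfae_finish

end

end Pool.Agent.N522.HC
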