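import Pool.Agent.N522.HC.Link

/-!
# Polarizations of abelian varieties of CM type
-/

set_option autoImplicit false
set_option linter.unusedSectionVars false

namespace Pool.Agent.N522.HC

open Module Pool.Agent.Y90 NumberField Pool.Agent.R915
open Pool.Agent.H204R3.CM (IsCMType)
open Pool.Agent.W547.KB (CMPair CMAV)

noncomputable section

/-- An element whose images under the CM type have positive imaginary parts. -/
theorem exists_im (P : CMPair) : ∃ ξ : P.E, ∀ φ ∈ P.Φ, 0 < (φ ξ).im := by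
  classical
  have h1 : (fun _ : P.Φ => Complex.I) ∈
      Submodule.span ℝ (Set.range fun (x : P.E) (φ : P.Φ) => φ.1 x) := by
    rw [span_type P.E P.Φ P.isCMType]
    trivial
  obtain ⟨c, hc⟩ := (Finsupp.mem_span_range_iff_exists_finsupp).1 h1
  let G : (c.support → ℝ) → P.Φ → ℝ := fun r φ => ∑ x : c.support, r x * (φ.1 (x : P.E)).im
  have hG : ∀ φ, Continuous fun r => G r φ := by
    intro φ
    exact continuous_finsetSum _ fun x _ => (continuous_apply x).mul continuous_const
  have hopen : IsOpen {r : c.support → ℝ | ∀ φ, 0 < G r φ} := by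
    rw [Set.ofPred_forall]
    exact isOpen_iInter_of_finite fun φ => isOpen_lt continuous_const (hG φ)
  have hmem : (fun x : c.support => c x) ∈ {r : c.support → ℝ | ∀ φ, 0 < G r φ} := by
    intro φ
    have h2 := congrArg Complex.im (congrFun hc φ)
    rw [Complex.I_im] at h2
    have h3 : G (fun x : c.support => c x) φ = 1 := by
      rw [← h2]
      change ∑ x : c.support, c x * (φ.1 (x : P.E)).im = _
      rw [Finset.sum_coe_sort c.support fun x => c x * (φ.1 x).im]
      unfold Finsupp.sum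
      rw [Finset.sum_apply, Complex.im_sum]
      refine Finset.sum_congr rfl fun x _ => ?_
      change c x * (φ.1 x).im = ((c x) • (φ.1 x)).im
      rw [Complex.real_smul, Complex.im_ofReal_mul]
    rw [h3]
    exact one_pos
  have hdense : DenseRange (Pi.map fun (_ : c.support) (q : ℚ) => (q : ℝ)) :=
    DenseRange.piMap fun _ => Rat.denseRange_cast
  obtain ⟨q, hq⟩ := hdense.exists_mem_open hopen ⟨_, hmem⟩
  refine ⟨∑ x : c.support, (q x : P.E) * (x : P.E), fun φ hφ => ?_⟩
  have h2 := hq ⟨φ, hφ⟩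
  have h3 : (φ (∑ x : c.support, (q x : P.E) * (x : P.E))).im =
      G (Pi.map (fun (_ : c.support) (q : ℚ) => (q : ℝ)) q) ⟨φ, hφ⟩ := by
    rw [map_sum, Complex.im_sum]
    refine Finset.sum_congr rfl fun x _ => ?_
    rw [map_mul, map_ratCast]
    change _ = (q x : ℝ) * _
    rw [← Complex.ofReal_ratCast, Complex.im_ofReal_mul]
  rw [h3]
  exact h2

/-- The trace as a sum over the embeddings. -/
theorem trace_eq (K : Type) [Field K] [NumberField K] (x : K) :
    ((Algebra.trace ℚ K x : ℚ) : ℂ) = ∑ φ : K →+* ℂ, φ x := by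
  have h1 := trace_eq_sum_embeddings (K := ℚ) (L := K) ℂ (x := x)
  rw [eq_ratCast] at h1
  rw [h1]
  exact Fintype.sum_equiv (RingHom.equivRatAlgHom K ℂ).symm _ _ fun σ => rfl

open Classical in
/-- A sum over all embeddings. -/
theorem sum_type (K : Type) [Field K] [NumberField K] (Φ : Set (K →+* ℂ)) (hΦ : IsCMType Φ)
    (F : (K →+* ℂ) → ℂ) (hF : ∀ φ, F (ComplexEmbedding.conjugate φ) = starRingEnd ℂ (F φ)) :
    ∑ φ, F φ = ∑ φ : Φ, ((2 * (F φ.1).re : ℝ) : ℂ) := by
  have h1 : ∑ φ, F φ = ∑ φ : Φ, F φ.1 + ∑ φ : (Φᶜ : Set (K →+* ℂ)), F φ.1 := by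
    have h3 := Fintype.sum_sum_type fun x : Φ ⊕ (Φᶜ : Set (K →+* ℂ)) => F (Equiv.Set.sumCompl Φ x)
    have h4 := Equiv.sum_comp (Equiv.Set.sumCompl Φ) F
    rw [← h4, h3]
    rfl
  have h2 : ∑ φ : (Φᶜ : Set (K →+* ℂ)), F φ.1 = ∑ φ : Φ, starRingEnd ℂ (F φ.1) := by
    have hm : ∀ φ : (Φᶜ : Set (K →+* ℂ)), ComplexEmbedding.conjugate φ.1 ∈ Φ := fun φ => by
      by_contra hcon
      exact φ.2 ((hΦ φ.1).2 hcon)
    have hm' : ∀ φ : Φ, ComplexEmbedding.conjugate φ.1 ∈ Φᶜ := fun φ => (hΦ φ.1).1 φ.2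
    let ε : (Φᶜ : Set (K →+* ℂ)) ≃ Φ := ⟨fun φ => ⟨ComplexEmbedding.conjugate φ.1, hm φ⟩,
      fun φ => ⟨ComplexEmbedding.conjugate φ.1, hm' φ⟩, fun φ => Subtype.ext (star_star φ.1),
      fun φ => Subtype.ext (star_star φ.1)⟩
    refine Fintype.sum_equiv ε _ _ fun φ => ?_
    change F φ.1 = starRingEnd ℂ (F (ComplexEmbedding.conjugate φ.1))
    rw [hF, Complex.conj_conj]
  rw [h1, h2, ← Finset.sum_add_distrib]
  refine Finset.sum_congr rfl fun φ _ => ?_
  rw [Complex.add_conj]

/-- **Abelian varieties of CM type are polarized.** -/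
theorem exists_pol (X : CMAV) : ∃ E, IsPolarization X.per E := by
  classical
  choose ξ hξ using fun i => exists_im (X.factor i)
  let δ : ∀ i, (X.factor i).E := fun i => ξ i - IsCMField.complexConj _ (ξ i)
  have hδ : ∀ i (φ : (X.factor i).E →+* ℂ), φ (δ i) = ((2 * (φ (ξ i)).im : ℝ) : ℂ) * Complex.I := by
    intro i φ
    change φ (ξ i - IsCMField.complexConj _ (ξ i)) = _
    rw [map_sub, IsCMField.complexEmbedding_complexConj, Complex.sub_conj]
  let d : ∀ i, (X.factor i).Φ → ℝ := fun i φ => 4 * (φ.1 (ξ i)).im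
  have hd : ∀ i φ, 0 < d i φ := fun i φ => mul_pos (by norm_num) (hξ i φ.1 φ.2)
  refine ⟨fun v w => -∑ i, Algebra.trace ℚ (X.factor i).E (δ i * v i * IsCMField.complexConj _ (w i)),
    fun u u' => ∑ i, ∑ φ : (X.factor i).Φ, (d i φ : ℂ) * (u i φ * starRingEnd ℂ (u' i φ)),
    fun u' => ⟨fun u v => ?_, fun z u => ?_⟩, fun u u' => ?_, fun u hu => ?_, fun v w => ?_⟩
  · rw [← Finset.sum_add_distrib]
    refine Finset.sum_congr rfl fun i _ => ?_
    rw [← Finset.sum_add_distrib]
    refine Finset.sum_congr rfl fun φ _ => ?_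
    change (d i φ : ℂ) * ((u i φ + v i φ) * _) = _
    ring
  · rw [Finset.smul_sum]
    refine Finset.sum_congr rfl fun i _ => ?_
    rw [Finset.smul_sum]
    refine Finset.sum_congr rfl fun φ _ => ?_
    change (d i φ : ℂ) * ((z * u i φ) * _) = z * _
    ring
  · rw [map_sum]
    refine Finset.sum_congr rfl fun i _ => ?_
    rw [map_sum]
    refine Finset.sum_congr rfl fun φ _ => ?_
    rw [map_mul, map_mul, Complex.conj_conj, Complex.conj_ofReal]
    ring
  · obtain ⟨i0, φ0, h0⟩ : ∃ i φ, u i φ ≠ 0 := by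
      by_contra hcon
      push Not at hcon
      exact hu (funext fun i => funext fun φ => hcon i φ)
    have hterm : ∀ i (φ : (X.factor i).Φ), ((d i φ : ℂ) * (u i φ * starRingEnd ℂ (u i φ))).re =
        d i φ * Complex.normSq (u i φ) := by
      intro i φ
      rw [Complex.mul_conj, ← Complex.ofReal_mul, Complex.ofReal_re]
    rw [Complex.re_sum]
    refine Finset.sum_pos' (fun i _ => ?_) ⟨i0, Finset.mem_univ _, ?_⟩
    · rw [Complex.re_sum]
      refine Finset.sum_nonneg fun φ _ => ?_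
      rw [hterm]
      exact mul_nonneg (hd i φ).le (Complex.normSq_nonneg _)
    · rw [Complex.re_sum]
      refine Finset.sum_pos' (fun φ _ => ?_) ⟨φ0, Finset.mem_univ _, ?_⟩
      · rw [hterm]
        exact mul_nonneg (hd i0 φ).le (Complex.normSq_nonneg _)
      · rw [hterm]
        exact mul_pos (hd i0 φ0) (Complex.normSq_pos.2 h0)
  · rw [Complex.im_sum]
    push_cast
    rw [← Finset.sum_neg_distrib]
    refine Finset.sum_congr rfl fun i _ => ?_
    have h1 := trace_eq (X.factor i).E (δ i * v i * IsCMField.complexConj _ (w i))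
    rw [sum_type (X.factor i).E (X.factor i).Φ (X.factor i).isCMType _ fun φ => by
      rw [ComplexEmbedding.conjugate_coe_eq]] at h1
    have h2 := congrArg Complex.re h1
    rw [Complex.re_sum, ← Complex.ofReal_ratCast, Complex.ofReal_re] at h2
    rw [h2, Complex.im_sum, ← Finset.sum_neg_distrib]
    refine Finset.sum_congr rfl fun φ _ => ?_
    rw [Complex.ofReal_re, map_mul, map_mul, hδ, IsCMField.complexEmbedding_complexConj]
    change ((d i φ : ℂ) * (φ.1 (v i) * starRingEnd ℂ (φ.1 (w i)))).im = _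
    set z := φ.1 (v i) * starRingEnd ℂ (φ.1 (w i)) with hz
    rw [Complex.im_ofReal_mul]
    have h3 : ((2 * (φ.1 (ξ i)).im : ℝ) : ℂ) * Complex.I * φ.1 (v i) * starRingEnd ℂ (φ.1 (w i)) =
        ((2 * (φ.1 (ξ i)).im : ℝ) : ℂ) * (Complex.I * z) := by
      rw [hz]
      ring
    rw [h3, Complex.re_ofReal_mul, Complex.I_mul_re]
    change 4 * (φ.1 (ξ i)).im * z.im = _
    ring

end

end Pool.Agent.N522.HC
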